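import Pool.Agent.H67.TCR.Tr

/-!
3_t-critical graphs of diameter 2 with the minimum number of edges
-/

set_option autoImplicit false

namespace Pool.Agent.Results.MP_6c214f_co.MinimumSize

/-- `S` is a total dominating set of `G`: every vertex has a neighbour in `S` -/
def TotalDominating {V : Type*} (G : SimpleGraph V) (S : Finset V) : Prop :=
  ∀ v, ∃ w ∈ S, G.Adj v w

/-- `G` is `3_t`-critical: `γ_t(G) = 3`, and `γ_t(G + uv) < 3` for all nonadjacent `u ≠ v` -/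
def Critical {V : Type*} (G : SimpleGraph V) : Prop :=
  (∃ S, TotalDominating G S ∧ S.card = 3) ∧
  (∀ S, TotalDominating G S → 3 ≤ S.card) ∧
  ∀ u v, u ≠ v → ¬ G.Adj u v →
    ∃ S, TotalDominating (G ⊔ SimpleGraph.edge u v) S ∧ S.card < 3

/-- the graph `C₅(k 0, …, k 4)`: cliques `X_0, …, X_4`, with `X_i` of `k i` vertices, and all
edges between `X_i` and `X_{i + 1}` -/
def C5 (k : Fin 5 → ℕ) : SimpleGraph (Σ i : Fin 5, Fin (k i)) where
  Adj x y := x ≠ y ∧ (x.1 = y.1 ∨ y.1 = x.1 + 1 ∨ x.1 = y.1 + 1)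
  symm := ⟨fun _ _ h => ⟨h.1.symm, h.2.elim (fun h => Or.inl h.symm)
    (fun h => h.elim (fun h => Or.inr (Or.inr h)) (fun h => Or.inr (Or.inl h)))⟩⟩
  loopless := ⟨fun _ h => h.1 rfl⟩

/-- `C₅(k 0, …, k 4)` is a member of `𝓗_n` -/
def InH (n : ℕ) (k : Fin 5 → ℕ) : Prop :=
  (∀ i, 1 ≤ k i) ∧ k 0 = 1 ∧ (k 1 = (n - 3) / 2 ∨ k 1 = (n - 2) / 2) ∧ k 2 = 1 ∧
    ∑ i, k i = n

theorem inH_iff {n : ℕ} (hn : 5 ≤ n) (k : Fin 5 → ℕ) :
    InH n k ↔ Pool.Agent.H67.TCR.InH n k := by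
  unfold InH Pool.Agent.H67.TCR.InH
  rw [Fin.sum_univ_five]
  constructor
  · rintro ⟨h, h0, h1, h2, h3⟩
    exact ⟨h0, h1, h2, h 3, h 4, by omega⟩
  · rintro ⟨h0, h1, h2, h3, h4, h5⟩
    refine ⟨?_, h0, h1, h2, by omega⟩
    intro i
    fin_cases i
    · exact h0.ge
    · show 1 ≤ k 1
      omega
    · exact h2.ge
    · exact h3
    · exact h4

/-- Every sufficiently large `3_t`-critical graph of diameter 2 has at least `⌊(n² - 4)/4⌋`
edges, with equality exactly for the members of `𝓗_n`; and all members of `𝓗_n` are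
`3_t`-critical graphs of diameter 2 with `⌊(n² - 4)/4⌋` edges. -/
theorem result :
    (∃ N : ℕ, ∀ (V : Type) [Fintype V] (G : SimpleGraph V), N ≤ Fintype.card V →
      Critical G → G.diam = 2 →
        (Fintype.card V ^ 2 - 4) / 4 ≤ G.edgeSet.ncard ∧
        (G.edgeSet.ncard = (Fintype.card V ^ 2 - 4) / 4 ↔
          ∃ k, InH (Fintype.card V) k ∧ Nonempty (G ≃g C5 k))) ∧
    ∀ (n : ℕ) (k : Fin 5 → ℕ), InH n k →
      Critical (C5 k) ∧ (C5 k).diam = 2 ∧ (C5 k).edgeSet.ncard = (n ^ 2 - 4) / 4 := by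
  refine ⟨?_, ?_⟩
  · obtain ⟨N, hN⟩ := Pool.Agent.H67.TCR.main_gen
    refine ⟨max N 5, ?_⟩
    intro V _ G hn hG hd
    have h := hN V G (le_trans (le_max_left _ _) hn) hG hd
    refine ⟨h.1, h.2.trans ?_⟩
    refine exists_congr fun k => ?_
    rw [inH_iff (le_trans (le_max_right _ _) hn)]
    exact Iff.rfl
  · intro n k hk
    have hn : 5 ≤ n := by
      obtain ⟨h, -, -, -, h3⟩ := hk
      rw [Fin.sum_univ_five] at h3
      have := h 0
      have := h 1
      have := h 2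
      have := h 3
      have := h 4
      omega
    exact ⟨Pool.Agent.H67.TCR.C5_crit k hk.1, Pool.Agent.H67.TCR.C5_diam k hk.1,
      Pool.Agent.H67.TCR.C5_edges ((inH_iff hn k).1 hk)⟩

end Pool.Agent.Results.MP_6c214f_co.MinimumSize
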